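import Mathlib
import Pool.Agent.T6.H97.TA.All
import Pool.Agent.T6.H97.TA.Hy
import Pool.Agent.T6.H97.TB.Fin
import Pool.Agent.T6.H97.TB.V2
import Pool.Agent.T6.H97.TB.Bd
import Pool.Agent.T6.H97.TB.DtN
import Pool.Agent.T6.H97.TB.RkN
import Pool.Agent.T6.H97.TB.Pt
import Pool.Agent.T6.H81.BG.L3
import Pool.Agent.T6.H81.BG.R3
import Pool.Agent.T6.H81.BG.C3
import Pool.Agent.T6.H81.BG.P3
import Pool.Agent.T6.H81.BG.H3
import Pool.Agent.T6.H81.BG.W3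
import Pool.Agent.T6.H81.BG.Z3
import Pool.Agent.T6.H81.BH.TR
import Pool.Agent.T6.H81.BI.Fin6
import Pool.Agent.T6.H81.BI.Uni

/-!
Smooth divisors of type `(1, 1, 1)` in the product of three projective planes, in terms of
polynomials.
-/

set_option autoImplicit false

namespace Pool.Agent.T6.H97.TC

open Finset Matrix Filter Topology
open Pool.Agent.H548.WM (Rep ht)
open Pool.Agent.H548.TL (evz tf g1 g2 g3 s12 s23 Tx Sm InU)
open Pool.Agent.T6.H5.TW (fl MultiDeg)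
open Pool.Agent.T6.H81.BG (Pt Zr cf mf LFs Phs)
open Pool.Agent.T6.H81.BH.TFS (TRep Rk)
open Pool.Agent.T6.H81.BH (cx)
open Pool.Agent.T6.H97.TB (InW Rk3 TN)

theorem rk3_iff (T : TN 3) (x : Fin 3 → ℤ) : Rk3 T x ↔ 3 ≤ (cx T x).rank := by
  rw [Pool.Agent.T6.H81.BH.BD.cx_map, ← Pool.Agent.T6.H81.BH.Fin5.rank_cast]
  exact Pool.Agent.T6.H97.TB.rows_iff (Tx T x)

theorem zr_iff {F : Fin 1 → MvPolynomial (Σ _ : Fin 3, Fin 3) ℤ} {T : TN 3}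
    (hT : TRep (n := fun _ => 3) F T) {K : Type} [CommRing K] (x : Fin 3 → Fin 3 → K) :
    Zr (n := fun _ => 3) F x ↔ tf T (x 0) (x 1) (x 2) = 0 := by
  rw [← (hT K x).1]
  constructor
  · intro h
    exact h 0
  · intro h e
    rw [Subsingleton.elim e 0]
    exact h

theorem inW_iff {F : Fin 1 → MvPolynomial (Σ _ : Fin 3, Fin 3) ℤ} {T : TN 3}
    (hT : TRep (n := fun _ => 3) F T) (x : Fin 3 → Fin 3 → ℤ) :
    InW T x ↔ (Zr (n := fun _ => 3) F x ∧ (∀ v, cf (n := fun _ => 3) F 0 v x ≠ 0) ∧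
      ∀ v, Rk (n := fun _ => 3) T x v) := by
  have k := hT ℤ x
  have e0 : Rk (n := fun _ => 3) T x 0 ↔ Rk3 T (x 0) := (rk3_iff T (x 0)).symm
  have e1 : Rk (n := fun _ => 3) T x 1 ↔ Rk3 (s12 T) (x 1) := (rk3_iff (s12 T) (x 1)).symm
  have e2 : Rk (n := fun _ => 3) T x 2 ↔ Rk3 (s12 (s23 T)) (x 2) :=
    (rk3_iff (s12 (s23 T)) (x 2)).symm
  rw [Pool.Agent.T6.H81.BH.TFS.forall3, Pool.Agent.T6.H81.BH.TFS.forall3, zr_iff hT, k.2.1,
    k.2.2.1, k.2.2.2, e0, e1, e2]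
  unfold InW InU
  tauto

/-- **Three projective planes.** -/
theorem asy222 : Pool.Agent.T6.H81.BI.Stmt222 := by
  intro F hF hsm ψ S φ hψ hφ
  obtain ⟨T, hT, hs⟩ := Pool.Agent.T6.H81.BI.Fin6.tensor Pool.Agent.T6.H81.BH.tR F hF hsm
  have eK : ∀ (K : Type) [CommRing K], {x : Fin 3 → Fin 3 → K | Zr (n := fun _ => 3) F x} =
      {x : Fin 3 → Fin 3 → K | tf T (x 0) (x 1) (x 2) = 0} := by
    intro K _
    ext x
    exact zr_iff hT x
  obtain ⟨c, hc, h⟩ := Pool.Agent.T6.H97.TB.main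
      (Pool.Agent.T6.H81.BG.c3 (Pool.Agent.T6.H81.BG.r3 Pool.Agent.T6.H81.BG.l3))
      Pool.Agent.T6.H81.BG.p3 Pool.Agent.T6.H81.BG.h3 Pool.Agent.T6.H81.BG.w3
      Pool.Agent.T6.H81.BG.z3 Pool.Agent.T6.H97.TA.box_unc Pool.Agent.T6.H97.TA.ub_unc
      Pool.Agent.T6.H97.TA.hy
      (Pool.Agent.T6.H97.TB.bd (Pool.Agent.T6.H97.TB.v2 Pool.Agent.T6.H97.TB.rkN)
        Pool.Agent.T6.H97.TB.dtN)
      (Pool.Agent.T6.H97.TB.pt Pool.Agent.T6.H97.TB.dtN) (le_refl 2) T hs ψ S φ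
      (by
        have e := eK ℝ
        rw [e] at hψ
        exact hψ)
      (by
        intro p hp
        have e := eK ℚ_[p]
        have h1 := hφ p hp
        rw [e] at h1
        exact h1)
  refine ⟨c, hc, fun G hG _ => ?_⟩
  subst hG
  refine h.congr fun B => ?_
  congr 3
  ext x
  simp only [Set.mem_ofPred_eq]
  have e1 : evz (1 : MvPolynomial (Σ _ : Fin 3, Fin 3) ℤ) (fl (n := fun _ => 3) x) ≠ 0 := by
    rw [Pool.Agent.T6.H81.BH.TLow.evz_one]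
    exact one_ne_zero
  have e2 := inW_iff hT x
  have e3 := Pool.Agent.T6.H81.BH.Fin5.rk_iff (n := fun _ => 3) hT x
  constructor
  · rintro ⟨h1, h2, h3⟩
    obtain ⟨a1, a2, a3⟩ := e2.1 h2
    exact ⟨h1, a1, a2, e3.2 a3, e1, h3⟩
  · rintro ⟨h1, a1, a2, a3, -, h3⟩
    exact ⟨h1, e2.2 ⟨a1, a2, e3.1 a3⟩, h3⟩

end Pool.Agent.T6.H97.TC
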