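import Mathlib
import Pool.Agent.T6.H97.TA.All
import Pool.Agent.T6.H97.TA.Hy
import Pool.Agent.T6.H97.TB.Fin
import Pool.Agent.T6.H97.TB.V2
import Pool.Agent.T6.H97.TB.Bd
import Pool.Agent.T6.H97.TB.DtN
import Pool.Agent.T6.H97.TB.RkN
import Pool.Agent.T6.H97.TB.Pt
import Pool.Agent.T6.H81.BG.L3
import Pool.Agent.T6.H81.BG.R3
import Pool.Agent.T6.H81.BG.C3
import Pool.Agent.T6.H81.BG.P3
import Pool.Agent.T6.H81.BG.H3
import Pool.Agent.T6.H81.BG.W3
import Pool.Agent.T6.H81.BG.Z3

/-!
The asymptotic formula `c B (log B) ^ 2` for the number of rational points of bounded anticanonical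
height, for all adelic heights, on all smooth divisors `X` of type `(1,1,1)` in the product
`ℙ^n × ℙ^n × ℙ^n`, for all `n ≥ 2`, over the rational numbers. These are Fano varieties of dimension
`3 n - 1` and Picard number `3`.

* `T`: integer coefficients. `tf T x y z = ∑ T i j k * x i * y j * z k` is the trilinear form; the
  equation `tf T x y z = 0` defines `X`.
* `g1 T y z`, `g2 T x z`, `g3 T x y` are the vectors of the partial derivatives of the form in the
  first, second and third argument.
* `Smooth T`: there is no complex point at which all partial derivatives vanish.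
* `Tx T x` is the matrix of the bilinear form `tf T x · ·`; `Tx (s12 T) y` and `Tx (s12 (s23 T)) z`
  are the matrices of the bilinear forms `tf T · y ·` and `tf T · · z`.
* `InW T P`: the point `P = (P 0, P 1, P 2)` is in the open subset `U` of `X` where the three
  vectors `g1 T (P 1) (P 2)`, `g2 T (P 0) (P 2)`, `g3 T (P 0) (P 1)` are not zero and the matrices
  `Tx T (P 0)`, `Tx (s12 T) (P 1)`, `Tx (s12 (s23 T)) (P 2)` have rank at least `3` (`Rk3`: three
  of the rows are linearly independent).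
* `Rep v`: `v` is the normalised primitive integer representative of a rational point of the
  projective space (greatest common divisor of the coordinates `1`, first nonzero coordinate
  positive); `ht v` is the maximum of the absolute values of the coordinates.
* `LFs X φ`: `φ` is a positive continuous function on the points over `K`, the real or the `p`-adic
  numbers, of the variety `X`. `Phs ψ S φ P` is the product of `ψ` and the `φ p`, `p ∈ S`, at the
  point. The anticanonical bundle of `X` is `O(n, n, n)`, so that the heights defined by the adelic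
  metrics on it are the functions `ht (P 0) ^ n * ht (P 1) ^ n * ht (P 2) ^ n * Phs ψ S φ P`.

The theorem: `U` is not empty, and for every such height the number of the rational points of `U` of
height at most `B` is asymptotically equal to `c B (log B) ^ 2` with `c > 0`.
-/

namespace Pool.Agent.T6.H97.TC.TrilinearAllHeights

open Pool.Agent.H548.WM (Rep ht)
open Pool.Agent.H548.TL (tf Smooth)
open Pool.Agent.T6.H81.BG (LFs Phs)
open Pool.Agent.T6.H97.TB (InW)
open Filter Topology

theorem result {n : ℕ} (hn : 2 ≤ n) (T : Fin (n + 1) → Fin (n + 1) → Fin (n + 1) → ℤ)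
    (hs : Smooth T) :
    (∃ P : Fin 3 → Fin (n + 1) → ℂ, (∀ i, P i ≠ 0) ∧ InW T P) ∧
    ∀ (ψ : (Fin 3 → Fin (n + 1) → ℝ) → ℝ) (S : Finset Nat.Primes)
      (φ : ∀ p : Nat.Primes, (Fin 3 → Fin (n + 1) → ℚ_[p]) → ℝ),
      LFs (n := fun _ => n + 1) {P | tf T (P 0) (P 1) (P 2) = 0} ψ →
      (∀ p ∈ S, LFs (n := fun _ => n + 1) {P | tf T (P 0) (P 1) (P 2) = 0} (φ p)) →
      ∃ c : ℝ, 0 < c ∧ Tendsto (fun B : ℝ =>
        ({P : Fin 3 → Fin (n + 1) → ℤ | (∀ i, Rep (P i)) ∧ InW T P ∧
          (∏ i, (ht (P i) : ℝ) ^ n) * Phs (n := fun _ => n + 1) ψ S φ P ≤ B}.ncard : ℝ) /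
          (B * Real.log B ^ 2)) atTop (𝓝 c) :=
  ⟨Pool.Agent.T6.H97.TB.nonempty
      (Pool.Agent.T6.H97.TB.pt Pool.Agent.T6.H97.TB.dtN) hn T hs,
    fun ψ S φ hψ hφ => Pool.Agent.T6.H97.TB.main
      (Pool.Agent.T6.H81.BG.c3 (Pool.Agent.T6.H81.BG.r3 Pool.Agent.T6.H81.BG.l3))
      Pool.Agent.T6.H81.BG.p3 Pool.Agent.T6.H81.BG.h3 Pool.Agent.T6.H81.BG.w3
      Pool.Agent.T6.H81.BG.z3 Pool.Agent.T6.H97.TA.box_unc Pool.Agent.T6.H97.TA.ub_unc
      Pool.Agent.T6.H97.TA.hy
      (Pool.Agent.T6.H97.TB.bd (Pool.Agent.T6.H97.TB.v2 Pool.Agent.T6.H97.TB.rkN)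
        Pool.Agent.T6.H97.TB.dtN)
      (Pool.Agent.T6.H97.TB.pt Pool.Agent.T6.H97.TB.dtN) hn T hs ψ S φ hψ hφ⟩

end Pool.Agent.T6.H97.TC.TrilinearAllHeights
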